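import Pool.Agent.N842.TU.Fin

/-!
# Torsion in the class groups of the fields given by polynomials some coefficients of which arise from arbitrary integers by changing
a few digits

We consider families of polynomials `F_m = g + m_0 h_0 + ... + m_(d-1) h_(d-1)` with arbitrary polynomials `g`, `h_j` with integral
coefficients, where `g` is monic of degree `n`, the `h_j` are of smaller degree, and one of the `h_j` is `1` or `-1`: for example all
polynomials of degree `n` (`h_j = X ^ j`, `j < n`), the trinomials `X ^ n + a X + b` and their translates by a fixed polynomial, or the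
equations `f(x) = t`.  The numbers `m_j` arise from arbitrary integers by changing a few digits in base `b`.

The theorem bounds `Cl_K[l]`, for all `l` at the same time, for all number fields `K` of degree `n` which are generated by a root of one
of the polynomials `F_m`, for any set of at most `y ^ B` systems `(g, h_0, ..., h_(d-1))`, for all but a proportion `y ^ (-A)` of the
choices of the changed digits.
-/

set_option autoImplicit false

namespace Pool.Agent.Results.MP_695920_nt.ChangedDigits

open Finset Polynomial NumberField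

/-- The polynomial `F_m = g + ∑ m_j h_j`, for the system `G = (g, h)`. -/
noncomputable def member {d : ℕ} (G : ℤ[X] × (Fin d → ℤ[X])) (m : Fin d → ℕ) : ℤ[X] := G.1 + ∑ j, C (m j : ℤ) * G.2 j

/-- The system `(g, h)`: `g` is monic of degree `n`, the polynomials `h_j` are of degree smaller than `n`, and one of them is `1` or
`-1`. -/
structure IsSystem (n : ℕ) {d : ℕ} (G : ℤ[X] × (Fin d → ℤ[X])) : Prop where
  monic : G.1.Monic
  natDegree : G.1.natDegree = n
  degree_lt : ∀ j, (G.2 j).degree < n
  isUnit : ∃ j, IsUnit (G.2 j)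

/-- All number fields `K = ℚ(α)` of degree `n`, where `F(α) = 0`, satisfy, with `D = |disc K|`,
`|Cl_K[l]| ≤ C l ^ n M D ^ (1 / 2 + ε) max (D ^ (- 1 / (l n (n - 1))), w)` for all `l ≥ 1`. -/
def TorsionBound (n : ℕ) (C ε M w : ℝ) (F : ℤ[X]) : Prop :=
  ∀ (K : Type) [Field K] [NumberField K] (α : K), Module.finrank ℚ K = n → IntermediateField.adjoin ℚ {α} = ⊤ → aeval α F = 0 →
    ∀ l : ℕ, 1 ≤ l → (Nat.card {x : ClassGroup (𝓞 K) // x ^ l = 1} : ℝ) ≤
      C * l ^ n * M * |(discr K : ℝ)| ^ (1 / 2 + ε) * max (|(discr K : ℝ)| ^ (-(1 / ((l : ℝ) * n * (n - 1))))) w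

/-- The digit number `i` (counted from the right, beginning with `0`) of `n` in base `b`. -/
def digit (b i n : ℕ) : ℕ := n / b ^ i % b

/-- The number which arises from the number `N` with at most `L` digits in base `b`, if for every `i ∈ S`
the digit number `i` is replaced by `f i`. -/
def change (b L N : ℕ) (f : ℕ → ℕ) (S : Finset ℕ) : ℕ :=
  ∑ i ∈ range L, (if i ∈ S then f i else digit b i N) * b ^ i

open Classical in
/-- The number of the choices of `r j` of `L j` positions for all `j` for which the tuple of the numbers obtained by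
changing the digits of the `N j` at the chosen positions (according to `f j`) does not have the property `E`. -/
noncomputable def exceptions {d : ℕ} (b : ℕ) (L r N : Fin d → ℕ) (f : Fin d → ℕ → ℕ) (E : (Fin d → ℕ) → Prop) : ℕ :=
  ((Fintype.piFinset (fun j => powersetCard (r j) (range (L j)))).filter
    (fun S => ¬ E (fun j => change b (L j) (N j) (f j) (S j)))).card

lemma exc_eq {d : ℕ} (b : ℕ) (L r N : Fin d → ℕ) (f : Fin d → ℕ → ℕ) (E : (Fin d → ℕ) → Prop) :
    exceptions b L r N f E = Pool.Agent.Y57.FD.exceptions b L r N f E := rfl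

/-- Let `n ≥ 2`, `d ≥ 1`, `b ≥ 2`, `ε > 0` and integers `A, B ≥ 0` be given.  There are `c, C > 0` and `y₀` such that for all integers
`r j`, `L j` (`j < d`), `ρ`, `y` with `ρ ≤ r j`, `2 r j ≤ L j` and `y ≥ y₀` the following holds.

Let `0 ≤ N j < b ^ L j` be arbitrary integers, and prescribe for every position `i` a digit `f j i` different from the digit of `N j` in
base `b`.  Let `𝒢` be an arbitrary set of at most `y ^ B` systems `(g, h)`, where `g ∈ ℤ[X]` is monic of degree `n` and the
`h_j ∈ ℤ[X]` (`j < d`) are of degree smaller than `n` and one of them is `1` or `-1`.  If one chooses `r j` of the `L j` positions and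
replaces the digits of `N j` at these positions, then for all but at most a proportion `1 / y ^ A` of the choices the numbers `m j`
obtained have the following property: for all systems in `𝒢` and ALL `l ≥ 1` all number fields `K` of degree `n` generated by a root of
`g + ∑ m_j h_j` satisfy, with `D = |disc K|`,

  `|Cl_K[l]| ≤ C l ^ n y D ^ (1 / 2 + ε) max (D ^ (- 1 / (l n (n - 1))), e ^ (- c ρ))`.

So there is a saving over the trivial bound for all `l` if at least a large constant times `log y + ε log D` digits of each of the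
numbers are changed, and if `c ρ ≥ log D / (l n (n - 1))`, the saving is a factor `D ^ (1 / (l n (n - 1)))`. -/
theorem result (n d b : ℕ) (hn : 2 ≤ n) (hd : 1 ≤ d) (hb : 2 ≤ b) (ε : ℝ) (hε : 0 < ε) (A B : ℕ) :
    ∃ c C : ℝ, 0 < c ∧ 0 < C ∧ ∃ y₀ : ℕ, ∀ (L r : Fin d → ℕ) (ρ y : ℕ), (∀ j, 2 * r j ≤ L j) → (∀ j, ρ ≤ r j) → y₀ ≤ y →
    ∀ N : Fin d → ℕ, (∀ j, N j < b ^ L j) →
    ∀ f : Fin d → ℕ → ℕ, (∀ j i, f j i < b ∧ f j i ≠ digit b i (N j)) →
    ∀ 𝒢 : Finset (ℤ[X] × (Fin d → ℤ[X])), 𝒢.card ≤ y ^ B → (∀ G ∈ 𝒢, IsSystem n G) →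
      (exceptions b L r N f
        (fun m => ∀ G ∈ 𝒢, TorsionBound n C ε y (Real.exp (-(c * ρ))) (member G m)) : ℝ) ≤
        1 / (y : ℝ) ^ A * ∏ j, ((L j).choose (r j) : ℝ) := by
  obtain ⟨c, C, hc, hC, y₀, h⟩ := Pool.Agent.N842.TU.torsion n d b hn hd hb ε hε A B
  refine ⟨c, C, hc, hC, y₀, fun L r ρ y hrL hρ hy N hN f hf 𝒢 h𝒢 hsys => ?_⟩
  rw [exc_eq]
  refine h L r y ρ hrL hρ hy N hN f hf 𝒢 h𝒢 (fun G hG => ⟨(hsys G hG).monic, (hsys G hG).natDegree, (hsys G hG).degree_lt,
    (hsys G hG).isUnit⟩) _ fun m hm G hG K _ _ α hK hα h0 l hl => ?_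
  have h1 := hm G hG K α hK hα h0 l hl
  rw [Real.exp_neg, ← one_div]
  exact h1

end Pool.Agent.Results.MP_695920_nt.ChangedDigits
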