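import Pool.Agent.TH869.EVF.Fin1

/-!
# Torsion in the class groups of the fields generated by roots of Dickson polynomials

Let `n ≥ 3` be odd. For integers `a`, `b` (`a = 0` if `3 ∣ n`) let `K = ℚ(α)` be a field of degree `n`
with `D_n(α, a) = b`, where `D_n(x, a)` is the Dickson polynomial (`D_n(u + a / u, a) = u^n + (a / u)^n`,
`D_n(x, 0) = x^n`). For all these fields, without exception, and for all `l ≥ 1` at once the number
of ideal classes killed by `l` is at most a constant times
`l^n log (|a| + |b| + 2) D^(1/2 - 1/(l n (n - 1)) + ε)`, where `D` is the absolute value of the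
discriminant of `K`.
-/

set_option autoImplicit false

namespace Pool.Agent.Results.MP_695920_nt.DicksonFields

open NumberField

/-- The Dickson polynomials `D_0 = 2`, `D_1 = x`, `D_{n+2} = x D_{n+1} - a D_n`, evaluated at `x`. -/
def dicksonValue {R : Type} [CommRing R] (a x : R) : ℕ → R
  | 0 => 2
  | 1 => x
  | n + 2 => x * dicksonValue a x (n + 1) - a * dicksonValue a x n

theorem dicksonValue_eq {R : Type} [CommRing R] (a x : R) :
    ∀ n : ℕ, dicksonValue a x n = (Polynomial.dickson 1 a n).eval x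
  | 0 => by
    rw [dicksonValue, Polynomial.dickson_zero]
    simp only [Polynomial.eval_sub, Polynomial.eval_ofNat, Polynomial.eval_natCast]
    push_cast
    ring
  | 1 => by
    rw [dicksonValue, Polynomial.dickson_one, Polynomial.eval_X]
  | n + 2 => by
    rw [dicksonValue, Polynomial.dickson_add_two, dicksonValue_eq a x (n + 1),
      dicksonValue_eq a x n]
    simp

/-- Let `n ≥ 3` be odd and `ε > 0`. There is a constant `C` such that the following holds for all
`l ≥ 1` and all integers `a`, `b` with `b² ≠ 4 a^n`, where `a = 0` or `3 ∤ n`: if `K` is a number field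
of degree `n`, generated by an element `α` with `D_n(α, a) = b`, then
`|Cl_K[l]| ≤ C l^n log (|a| + |b| + 2) |disc K|^(1/2 - 1/(l n (n - 1)) + ε)`. -/
theorem result (n : ℕ) (hn : 3 ≤ n) (hodd : Odd n) (ε : ℝ) (hε : 0 < ε) :
    ∃ C : ℝ, 0 < C ∧ ∀ (l : ℕ) (a b : ℤ), 1 ≤ l → (a = 0 ∨ ¬ 3 ∣ n) → b ^ 2 ≠ 4 * a ^ n →
      ∀ (K : Type) [Field K] [NumberField K], Module.finrank ℚ K = n →
        ∀ α : K, IntermediateField.adjoin ℚ {α} = ⊤ → dicksonValue (a : K) α n = b →
          (Nat.card {c : ClassGroup (𝓞 K) // c ^ l = 1} : ℝ) ≤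
            C * l ^ n * Real.log (|(a : ℝ)| + |(b : ℝ)| + 2) *
              |(discr K : ℝ)| ^ (1 / 2 - 1 / (l * n * (n - 1)) + ε : ℝ) := by
  obtain ⟨C, hC, h⟩ := Pool.Agent.TH869.EVF.dickson_torsion n hn hodd ε hε
  refine ⟨C, hC, fun l a b hl ha hab K _ _ hK α hα h0 => ?_⟩
  rw [dicksonValue_eq] at h0
  exact h l hl a b ha hab K hK α hα h0

end Pool.Agent.Results.MP_695920_nt.DicksonFields
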