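import Pool.Agent.R459.Tor10

/-!
# Torsion in the class groups of the fields `F(α) = j v` over sparse families of integers given by digits

The families of integers `v` have as few as `N ^ c` of the integers up to `N = b ^ k`, with any `c > 0`:
the rearrangements of `k` digits, the palindromes, the integers with independent pairs of mirror digits
(in particular the integers whose `i`-th digit lies in an arbitrary set `D i` with at least two digits,
for all `i`), and their images `c + κ v`. Let `F` be a monic polynomial of degree `n ≥ 2` with integer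
coefficients and let `K_v = ℚ(α)` be a field of degree `n` with `F(α) = j v`. For every `m ≥ 1` the
moment of order `m` of `|Cl(K_v)[ℓ]|` over such a family is at most
`(k ^ B Y ^ (1 / 2) max (Y ^ (-1 / (n (n - 1) ℓ)), b ^ (-δ k))) ^ m` if the discriminants are at most
`Y`. So `|Cl(K_v)[ℓ]|` is at most `Y ^ (1 / 2 - 1 / (n (n - 1) ℓ) + o(1))` in the mean of order `m` for
every fixed large `ℓ`. The bound is uniform in `F` and `j` (of polynomial size in `k`), in `ℓ` and in
the shift `c`, and `δ > 0` depends only on `m` and on the type of the families.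

Definitions used: in `Pool.Agent.R459.Eq` (file `Pool/Agent/R459/Mn.lean`): `Mean b k κ c η M f`: the
mean value of `f (c + κ v)` over each of the three families is at most `M`.

The theorem is from the library (`Pool.Agent.R459.Tor`, helper459), where it was used for quadratic
fields (`MP_0f260b_nt.DigitMoments`).
-/

set_option autoImplicit false

namespace Pool.Agent.Results.MP_695920_nt.DigitFamilies

open Polynomial NumberField Pool.Agent.R459.Eq

/-- the number of the ideal classes of `K` killed by `ℓ` -/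
noncomputable def tors (K : Type) [Field K] [NumberField K] (ℓ : ℕ) : ℕ :=
  Nat.card {x : ClassGroup (𝓞 K) // x ^ ℓ = 1}

open Classical in
/-- Let `b ≥ 2`, `η > 0` and `m ≥ 1`. There is `δ > 0` such that for `κ ≠ 0`, `n ≥ 2` and `T`, `V` there
are `B`, `k₀` such that the following holds for all `k ≥ k₀`, all integers `c`, all monic polynomials `F`
of degree `n` with integer coefficients of absolute value at most `k ^ T`, all integers `j ≠ 0` with
`|j| ≤ k ^ T`, all `1 ≤ ℓ ≤ k ^ T` and all `Y ≥ 1`.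

Let `S` be a set of integers of absolute value at most `b ^ (V k)` and let `K_v`, `v ∈ S`, be number
fields of degree `n` with discriminant of absolute value at most `Y`, generated by an element `α` with
`F(α) = j v`. Then the mean value, over the members `v = c + κ u` of each of the families of integers
with `k` digits described by `Mean` (the rearrangements of `k` digits, the palindromes, the integers
with independent pairs of mirror digits), of `|Cl(K_v)[ℓ]| ^ m` (with `0` if `v` is not in `S`) is at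
most `(k ^ B Y ^ (1 / 2) max (Y ^ (-1 / (n (n - 1) ℓ)), b ^ (-δ k))) ^ m`. -/
theorem result (b : ℕ) (hb : 2 ≤ b) (η : ℝ) (hη : 0 < η) (m : ℕ) (hm : 1 ≤ m) : ∃ δ : ℝ, 0 < δ ∧
    ∀ κ : ℤ, κ ≠ 0 → ∀ n : ℕ, 2 ≤ n → ∀ T V : ℕ, ∃ B k₀ : ℕ, ∀ k : ℕ, k₀ ≤ k → ∀ c : ℤ,
    ∀ F : ℤ[X], F.Monic → F.natDegree = n → (∀ i, |F.coeff i| ≤ (k : ℤ) ^ T) →
    ∀ j : ℤ, j ≠ 0 → |j| ≤ (k : ℤ) ^ T → ∀ ℓ : ℕ, 1 ≤ ℓ → ℓ ≤ k ^ T → ∀ Y : ℝ, 1 ≤ Y →
    ∀ (S : Set ℤ) (K : ℤ → Type) [∀ v, Field (K v)] [∀ v, NumberField (K v)],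
    (∀ v ∈ S, |v| ≤ (b : ℤ) ^ (V * k) ∧ Module.finrank ℚ (K v) = n ∧ |(discr (K v) : ℝ)| ≤ Y ∧
      ∃ α : K v, IntermediateField.adjoin ℚ {α} = ⊤ ∧ aeval α F = ((j * v : ℤ) : K v)) →
    Mean b k κ c η
      (((k : ℝ) ^ B * (√Y * max (Y ^ (-(1 / ((n : ℝ) * (n - 1) * ℓ)))) ((b : ℝ) ^ (-(δ * k))))) ^ m)
      (fun v => if v ∈ S then (tors (K v) ℓ : ℝ) ^ m else 0) := by
  obtain ⟨W, hW, H⟩ := Pool.Agent.R459.Tor.torsion_mom b hb η hη m hm
  have hWr : (0 : ℝ) < W := by exact_mod_cast hW
  refine ⟨1 / W, by positivity, fun κ hκ n hn T V => ?_⟩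
  obtain ⟨B, k₀, J⟩ := H κ hκ n hn T V
  refine ⟨B, k₀, fun k hk c F hF hFn hFc j hj0 hj ℓ hℓ hℓT Y hY S K _ _ hS => ?_⟩
  have h1 := J k hk c F ⟨hF, hFn, hFc⟩ j hj0 hj ℓ hℓ hℓT Y hY S K hS
  have e1 : ((n * (n - 1) * ℓ : ℕ) : ℝ) = (n : ℝ) * (n - 1) * ℓ := by
    rw [Nat.cast_mul, Nat.cast_mul, Nat.cast_sub (by omega), Nat.cast_one]
  have e2 : (k : ℝ) / W = 1 / W * k := by ring
  rw [e1, e2] at h1
  exact h1

end Pool.Agent.Results.MP_695920_nt.DigitFamilies
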