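import Pool.Agent.N384.MQ.Tors
import Pool.Agent.N384.MQ.Gen

/-!
# Torsion in the class groups of the members of families of residues

From Mathlib: `ZMod.stdAddChar`: the additive character `j ↦ exp (2 π i j / q)` of the integers modulo `q`; `ZMod.val`: the
least residue; `NumberField.discr`: the discriminant; `ClassGroup (𝓞 K)`: the ideal class group.

Method: a family of residues modulo `q` with small Fourier coefficients has small exponential sums at all real
frequencies which are not close to integers. From such exponential sums one gets, for almost all the members, many primes with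
a factor of degree one (from the starting files, `Pool.Agent.R459`, `H491R4.HM`), and then the bound for the torsion by the
method of Ellenberg and Venkatesh. Examples: a lemma of Ajtai, Iwaniec, Komlos, Pintz and Szemeredi on quotients by small
primes, the Stepanov type lemma of Heath-Brown and Konyagin for subgroups (library `H435R3.HBK`, `N825.FC`), and Weyl sums
without losses (library `H373R2.NB`).
-/

set_option autoImplicit false

namespace Pool.Agent.Results.MP_695920_nt.ResidueFamilies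

open Finset NumberField

/-- The Fourier coefficients of the residues `y i`, `i ∈ s`, modulo `q` at the nonzero frequencies are at most
`η` times the number of the residues: `|∑ i ∈ s, e(h y_i / q)| ≤ η |s|` for all `h ≠ 0` modulo `q`. -/
def Flat {ι : Type} (q : ℕ) [NeZero q] (η : ℝ) (s : Finset ι) (y : ι → ZMod q) : Prop :=
  ∀ h : ZMod q, h ≠ 0 → ‖∑ i ∈ s, (ZMod.stdAddChar (h * y i) : ℂ)‖ ≤ η * s.card

/-- the number of the ideal classes of `K` killed by `ℓ` -/
noncomputable def tors (K : Type) [Field K] [NumberField K] (ℓ : ℕ) : ℕ :=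
  Nat.card {x : ClassGroup (𝓞 K) // x ^ ℓ = 1}

open Classical in
/-- **(1)** Let `m ≥ 1`. There is `δ > 0` such that for `κ ≠ 0`, `n ≥ 2` and `T`, `V` there are `B`, `k₀` such that the
following holds for all `k ≥ k₀`.

Let `y i`, `i ∈ s`, be any finite family of residues modulo any `q ≥ 2 ^ k` whose Fourier coefficients at the nonzero
frequencies are at most `|s| / (2 ^ k (42 + 3 log q))`, let `c` be any integer, `F` a monic polynomial of degree `n` with integer
coefficients of absolute value at most `k ^ T`, `j ≠ 0` an integer with `|j| ≤ k ^ T`, `1 ≤ ℓ ≤ k ^ T`, and `Y ≥ 1`. Let `S` be a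
set of integers of absolute value at most `2 ^ (V k)` and let `K_v`, `v ∈ S`, be number fields of degree `n` with discriminant
of absolute value at most `Y`, generated by an element `α` with `F(α) = j v`. Then the mean value, over the members
`v = c + κ y_i` of the family (with the least residues `0 ≤ y_i < q`), of `|Cl(K_v)[ℓ]| ^ m` (with `0` if `v` is not in `S`) is
at most `(k ^ B Y ^ (1 / 2) max (Y ^ (-1 / (n (n - 1) ℓ)), 2 ^ (-δ k))) ^ m`.

**(2)**, **(3)** Examples. All the Fourier coefficients at nonzero frequencies are at most `|s| / K` for the following families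
of residues modulo primes `p` (all large primes in (2)), for ALL `K ≥ 1`:
* the quotients `j / r` of the integers `0 ≤ j < S` by the primes `r ≤ R`, if `K log ^ 4 p ≤ R < p` and `R ^ 2 ≤ S`; thus
  (1) applies to such sets with `p ^ (3 c + ε)` members, `2 ^ k = p ^ c`;
* the cosets of all subgroups of the multiplicative group of an order of at least `5 p ^ (3/8) K ^ 3`;
* the residues `a b + g(a) + k(b)`, `a ∈ A`, `b ∈ B`, for arbitrary sets with `|A| |B| ≥ p K ^ 2` and arbitrary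
  functions `g` and `k`;
* the values `f(n)`, `0 ≤ n < x`, of all integer polynomials of degree `d` whose leading coefficient is not divisible by
  `p`, if `p ≥ C K ^ C` and `x ^ d ≥ C K ^ C p`, where `C` depends on `d`.
In the last three examples `K`, and thus `2 ^ k`, can be a power of `p`. -/
theorem result :
    (∀ m : ℕ, 1 ≤ m → ∃ δ : ℝ, 0 < δ ∧ ∀ κ : ℤ, κ ≠ 0 → ∀ n : ℕ, 2 ≤ n → ∀ T V : ℕ, ∃ B k₀ : ℕ, ∀ k : ℕ, k₀ ≤ k →
      ∀ (ι : Type) (q : ℕ) [NeZero q] (s : Finset ι) (y : ι → ZMod q), 2 ^ k ≤ q →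
      Flat q (1 / ((2 : ℝ) ^ k * (42 + 3 * Real.log q))) s y → ∀ c : ℤ,
      ∀ F : Polynomial ℤ, F.Monic → F.natDegree = n → (∀ i, |F.coeff i| ≤ (k : ℤ) ^ T) →
      ∀ j : ℤ, j ≠ 0 → |j| ≤ (k : ℤ) ^ T → ∀ ℓ : ℕ, 1 ≤ ℓ → ℓ ≤ k ^ T → ∀ Y : ℝ, 1 ≤ Y →
      ∀ (S : Set ℤ) (K : ℤ → Type) [∀ v, Field (K v)] [∀ v, NumberField (K v)],
      (∀ v ∈ S, |v| ≤ (2 : ℤ) ^ (V * k) ∧ Module.finrank ℚ (K v) = n ∧ |(discr (K v) : ℝ)| ≤ Y ∧
        ∃ α : K v, IntermediateField.adjoin ℚ {α} = ⊤ ∧ Polynomial.aeval α F = ((j * v : ℤ) : K v)) →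
      ∑ i ∈ s, (if c + κ * ((y i).val : ℕ) ∈ S then (tors (K (c + κ * ((y i).val : ℕ))) ℓ : ℝ) ^ m else 0) ≤
        ((k : ℝ) ^ B * (√Y * max (Y ^ (-(1 / ((n : ℝ) * (n - 1) * ℓ)))) ((2 : ℝ) ^ (-(δ * k))))) ^ m * s.card) ∧
    (∃ P₀ : ℕ, ∀ p : ℕ, P₀ ≤ p → ∀ [Fact p.Prime] (K : ℝ), 1 ≤ K →
      (∀ R S : ℕ, K * Real.log p ^ 4 ≤ R → R < p → R ^ 2 ≤ S →
        Flat p (1 / K) (((Icc 1 R).filter Nat.Prime) ×ˢ range S)
          (fun z => ((z.2 : ℕ) : ZMod p) * ((z.1 : ℕ) : ZMod p)⁻¹)) ∧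
      (∀ (H : Subgroup (ZMod p)ˣ) (s : Finset (ZMod p)ˣ), (∀ u, u ∈ s ↔ u ∈ H) →
        5 * (p : ℝ) ^ (3 / 8 : ℝ) * K ^ 3 ≤ s.card → ∀ x : ZMod p, x ≠ 0 → Flat p (1 / K) s (fun u => x * (u : ZMod p))) ∧
      (∀ (A B : Finset (ZMod p)) (g k : ZMod p → ZMod p), (p : ℝ) * K ^ 2 ≤ A.card * B.card →
        Flat p (1 / K) (A ×ˢ B) (fun z => z.1 * z.2 + g z.1 + k z.2))) ∧
    (∀ d : ℕ, 1 ≤ d → ∃ C : ℕ, ∀ p : ℕ, ∀ [Fact p.Prime] (f : Polynomial ℤ), f.natDegree = d →
      ¬ (p : ℤ) ∣ f.leadingCoeff → ∀ K : ℝ, 1 ≤ K → C * K ^ C ≤ p → ∀ x : ℕ, C * K ^ C * p ≤ (x : ℝ) ^ d →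
      Flat p (1 / K) (range x) (fun n => ((f.eval (n : ℤ) : ℤ) : ZMod p))) := by
  refine ⟨?_, ?_, fun d hd => ?_⟩
  · intro m hm
    obtain ⟨W, hW, H⟩ := Pool.Agent.N384.MQ.mq_tors m hm
    have hWr : (0 : ℝ) < W := by exact_mod_cast hW
    refine ⟨1 / W, by positivity, fun κ hκ n hn T V => ?_⟩
    obtain ⟨B, k₀, J⟩ := H κ hκ n hn T V
    refine ⟨B, k₀, fun k hk ι q _ s y hkq hflat c F hF hFn hFc j hj0 hj ℓ hℓ hℓT Y hY S K _ _ hS => ?_⟩
    have hq1 : (2 : ℝ) ^ k ≤ q := by exact_mod_cast hkq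
    have hfam : Pool.Agent.N384.MQ.Fam q s y ((2 : ℝ) ^ k * (42 + 3 * Real.log q)) ((2 : ℝ) ^ k) :=
      ⟨mul_pos (by positivity) (by have := Real.log_natCast_nonneg q; linarith), hflat, hq1, le_rfl⟩
    have h1 := J k hk ι q s y _ hfam c F ⟨hF, hFn, hFc⟩ j hj0 hj ℓ hℓ hℓT Y hY S K hS
    have e1 : ((n * (n - 1) * ℓ : ℕ) : ℝ) = (n : ℝ) * (n - 1) * ℓ := by
      rw [Nat.cast_mul, Nat.cast_mul, Nat.cast_sub (by omega), Nat.cast_one]
    have e2 : (k : ℝ) / W = 1 / W * k := by ring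
    rw [e1, e2] at h1
    exact h1
  · obtain ⟨P₀, h0⟩ := Pool.Agent.N384.MQ.flatK_quot
    exact ⟨P₀, fun p hp _ K hK => ⟨fun R S => h0 p hp K hK R S,
      fun H s hs hc x hx => Pool.Agent.N384.MQ.flatK_coset p H s hs K hK hc x hx,
      fun A B g k hAB => Pool.Agent.N384.MQ.flatK_prod p A B g k K hK hAB⟩⟩
  · exact Pool.Agent.N384.MQ.flatK_poly d hd

end Pool.Agent.Results.MP_695920_nt.ResidueFamilies
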